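import Pool.Agent.Y366.SO.Gen

/-!
Solid packings with members of finitely many congruence types, or with uniform bounds and convex or
with uniformly nowhere dense frontiers.
-/

set_option autoImplicit false
set_option linter.unusedSectionVars false

namespace Pool.Agent.Y366.SO

open Set Metric Filter Topology
open Pool.Agent.Helper992.Solid (Es Congr Cl mem_interior_of_near)

theorem exists_unif {α : Type*} {s : Set α} (hs : s.Finite) (P : α → ℝ → Prop)
    (hmono : ∀ a ε ε', 0 < ε' → ε' ≤ ε → P a ε → P a ε')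
    (h : ∀ a ∈ s, ∃ ε, 0 < ε ∧ P a ε) : ∃ ε, 0 < ε ∧ ∀ a ∈ s, P a ε := by
  induction s, hs using Set.Finite.induction_on with
  | empty => exact ⟨1, one_pos, fun a ha => absurd ha (Set.notMem_empty a)⟩
  | @insert a s _ _ ih =>
    obtain ⟨ε, hε, h1⟩ := ih (fun b hb => h b (Set.mem_insert_of_mem _ hb))
    obtain ⟨ε', hε', h2⟩ := h a (Set.mem_insert _ _)
    refine ⟨min ε ε', lt_min hε hε', ?_⟩
    intro b hb
    rcases Set.mem_insert_iff.1 hb with rfl | hb
    · exact hmono _ _ _ (lt_min hε hε') (min_le_right _ _) h2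
    · exact hmono _ _ _ (lt_min hε hε') (min_le_left _ _) (h1 b hb)

variable {d : ℕ}

/-- the frontier of `A` is nowhere dense, with modulus `δ` -/
def Und (δ : ℝ → ℝ) (A : Set (Es d)) : Prop :=
  ∀ ρ : ℝ, 0 < ρ → ∀ w : Es d, ∃ p ∈ closedBall w ρ, ∀ y ∈ frontier A, δ ρ < dist p y

/-- `A` is congruent to a member of `𝒦`, or a compact set of diameter at most `D` which contains a
ball of radius `c` and is convex or has a frontier that is nowhere dense with modulus `δ` -/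
def Tame (𝒦 : Set (Set (Es d))) (c D : ℝ) (δ : ℝ → ℝ) (A : Set (Es d)) : Prop :=
  (∃ K ∈ 𝒦, Congr K A) ∨
    (IsCompact A ∧ (∃ z, closedBall z c ⊆ A) ∧ (∀ x ∈ A, ∀ y ∈ A, dist x y ≤ D) ∧
      (Convex ℝ A ∨ Und δ A))

theorem Und.spread {δ : ℝ → ℝ} {A : Set (Es d)} (h : Und δ A) (hA : IsCompact A) {c : ℝ}
    (hc : 0 < c) : Spread c (δ (c / 2)) A := by
  intro w
  obtain ⟨p, hp, h1⟩ := h (c / 2) (by positivity) w
  refine ⟨p, hp, ?_⟩
  intro y hy hyi
  apply h1
  rw [hA.isClosed.frontier_eq]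
  exact ⟨hy, hyi⟩

/-- the uniform constants of a tame family -/
theorem consts {𝒦 : Set (Set (Es d))} (hfin : 𝒦.Finite)
    (h𝒦 : ∀ K ∈ 𝒦, IsCompact K ∧ (interior K).Nonempty) {c D : ℝ} {δ : ℝ → ℝ} (hc : 0 < c)
    (hδ0 : ∀ ρ : ℝ, 0 < ρ → 0 < δ ρ) :
    ∃ c' D' ε : ℝ, 0 < c' ∧ 0 ≤ D' ∧ 0 < ε ∧ ε ≤ c' / 2 ∧ ∀ A, Tame 𝒦 c D δ A →
      IsCompact A ∧ (interior A).Nonempty ∧ (∃ z, closedBall z c' ⊆ A) ∧
      (∀ x ∈ A, ∀ y ∈ A, dist x y ≤ D') ∧ (Convex ℝ A ∨ Spread c' ε A) := by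
  obtain ⟨c1, hc1, h1⟩ := exists_unif hfin (fun K ε => ∃ z, closedBall z ε ⊆ K)
    (by
      rintro K ε ε' _ hle ⟨z, hz⟩
      exact ⟨z, (closedBall_subset_closedBall hle).trans hz⟩)
    (by
      intro K hK
      obtain ⟨z, hz⟩ := (h𝒦 K hK).2
      obtain ⟨r, hr, hr'⟩ := (Metric.nhds_basis_closedBall.mem_iff).1
        (mem_interior_iff_mem_nhds.1 hz)
      exact ⟨r, hr, z, hr'⟩)
  obtain ⟨e1, he1, h2⟩ := exists_unif hfin (fun K ε => ∀ x ∈ K, ∀ y ∈ K, dist x y ≤ 1 / ε)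
    (by
      intro K ε ε' hε' hle h x hx y hy
      exact (h x hx y hy).trans (one_div_le_one_div_of_le hε' hle))
    (by
      intro K hK
      refine ⟨1 / (Metric.diam K + 1), by have : 0 ≤ Metric.diam K := Metric.diam_nonneg
                                          positivity, ?_⟩
      intro x hx y hy
      rw [one_div_one_div]
      have := Metric.dist_le_diam_of_mem (h𝒦 K hK).1.isBounded hx hy
      linarith)
  have hcm : 0 < min c c1 := lt_min hc hc1
  obtain ⟨δ1, hδ1, h3⟩ := exists_unif hfin (fun K ε => Spread (min c c1) ε K)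
    (fun K ε ε' _ hle h => h.mono hle) (fun K hK => exists_spread (h𝒦 K hK).1 hcm)
  have hδc : 0 < δ (min c c1 / 2) := hδ0 _ (by positivity)
  refine ⟨min c c1, max D 0 + 1 / e1, min (min δ1 (δ (min c c1 / 2))) (min c c1 / 2), hcm,
    by positivity, lt_min (lt_min hδ1 hδc) (by positivity), min_le_right _ _, ?_⟩
  rintro A (⟨K, hK, hKA⟩ | ⟨hA1, ⟨z, hz⟩, hA4, hA2⟩)
  · refine ⟨hKA.compact (h𝒦 K hK).1, hKA.interior_nonempty (h𝒦 K hK).2, ?_, ?_, Or.inr ?_⟩
    · obtain ⟨z, hz⟩ := h1 K hK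
      exact hKA.ball ((closedBall_subset_closedBall (min_le_right _ _)).trans hz)
    · intro x hx y hy
      have := hKA.diam (h2 K hK) x hx y hy
      have h5 : 0 ≤ max D 0 := le_max_right _ _
      linarith
    · exact ((h3 K hK).congr hKA).mono ((min_le_left _ _).trans (min_le_left _ _))
  · refine ⟨hA1, ⟨z, ?_⟩, ⟨z, (closedBall_subset_closedBall (min_le_left _ _)).trans hz⟩, ?_, ?_⟩
    · rw [mem_interior_iff_mem_nhds]
      exact Filter.mem_of_superset (closedBall_mem_nhds z hc) hz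
    · intro x hx y hy
      have h4 := hA4 x hx y hy
      have h5 : D ≤ max D 0 := le_max_left _ _
      have h6 : 0 < 1 / e1 := by positivity
      linarith
    · exact hA2.imp id fun h => (h.spread hA1 hcm).mono ((min_le_left _ _).trans (min_le_right _ _))

/-- members of a tame family with disjoint interiors are not near to each other -/
theorem tame_sep {A B : Set (Es d)} {c δ δ' : ℝ} (hc : 0 < c) (hδ : δ ≤ c / 2) (hδ' : δ' < δ)
    (hA : IsCompact A) (hB : IsCompact B) (hAb : ∃ z, closedBall z c ⊆ A)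
    (hBb : ∃ z, closedBall z c ⊆ B) (hAt : Convex ℝ A ∨ Spread c δ A)
    (hBt : Convex ℝ B ∨ Spread c δ B) (hdisj : Disjoint (interior A) (interior B)) :
    ¬ Cl δ' A B := by
  have key : ∀ {A B : Set (Es d)}, IsCompact B → (∃ z, closedBall z c ⊆ A) → Convex ℝ B →
      Disjoint (interior A) (interior B) → ¬ Cl δ' A B := by
    intro A B hB hAb hBc hdisj hcl
    obtain ⟨z, hz⟩ := hAb
    have h1 : z ∈ interior B := by
      apply mem_interior_of_near (A := A) (c := c) (δ := max δ' 0) (le_max_right _ _)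
        (max_lt (by linarith) hc) hz hBc hB.isClosed
      exact (hcl.mono (le_max_left _ _)).1
    have h2 : z ∈ interior A := by
      rw [mem_interior_iff_mem_nhds]
      exact Filter.mem_of_superset (closedBall_mem_nhds z hc) hz
    exact Set.disjoint_left.1 hdisj h2 h1
  rcases hBt with hBt | hBt
  · exact key hB hAb hBt hdisj
  · rcases hAt with hAt | hAt
    · exact fun h => key hA hBb hAt hdisj.symm h.symm
    · obtain ⟨z, hz⟩ := hBb
      exact hAt.not_near hz hdisj hδ'.le (by linarith)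

/-- **Solid packings of tame bodies.** -/
theorem tame_ufs {𝒦 : Set (Set (Es d))} (hfin : 𝒦.Finite)
    (h𝒦 : ∀ K ∈ 𝒦, IsCompact K ∧ (interior K).Nonempty) {c D : ℝ} {δ : ℝ → ℝ} (hc : 0 < c)
    (hδ0 : ∀ ρ : ℝ, 0 < ρ → 0 < δ ρ)
    {ι : Type*} [Nontrivial ι] {C : ι → Set (Es d)} (hC : ∀ i, Tame 𝒦 c D δ (C i))
    (hS : IsSolid C) : UFS C ∧ ∃ R : ℝ, ∀ x : Es d, ∃ i, ∃ y ∈ C i, dist x y ≤ R := by
  obtain ⟨c', D', ε, hc', hD', hε, hεc, H⟩ := consts hfin h𝒦 (D := D) hc hδ0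
  have hB : Bodies C := fun i => ⟨(H _ (hC i)).1, (H _ (hC i)).2.1⟩
  have hdiam : ∀ i, ∀ x ∈ C i, ∀ y ∈ C i, dist x y ≤ D' := fun i => (H _ (hC i)).2.2.2.1
  refine ⟨solid_ufs hB hε hD' hdiam ?_ hS, ⟨3 * D' + 1, solid_dense hB hS hD' hdiam⟩⟩
  intro i j δ' hδ' hcl
  by_contra hij
  exact tame_sep hc' hεc hδ' (hB i).1 (hB j).1 (H _ (hC i)).2.2.1 (H _ (hC j)).2.2.1
    (H _ (hC i)).2.2.2.2 (H _ (hC j)).2.2.2.2 (hS.1 i j hij) hcl

end Pool.Agent.Y366.SO
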