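import Pool.Agent.Helper992.Solid6

/-!
Separation of nonconvex members of a packing.
-/

set_option autoImplicit false
set_option linter.unusedSectionVars false

namespace Pool.Agent.Y366.SO

open Set Metric Filter Topology
open Pool.Agent.Helper992.Solid (Es Congr Cl Hyp Nr Exact Iso im core image_inv_image image_inj
  congr_translate edist_ne_top cl_of_hausdorffDist mem_interior_of_near)

variable {d : ℕ}

/-- every ball of radius `c / 2` contains a point at distance more than `δ` from the boundary points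
of `K` -/
def Spread (c δ : ℝ) (K : Set (Es d)) : Prop :=
  ∀ w : Es d, ∃ p ∈ closedBall w (c / 2), ∀ y ∈ K, y ∉ interior K → δ < dist p y

theorem exists_spread {K : Set (Es d)} (hK : IsCompact K) {c : ℝ} (hc : 0 < c) :
    ∃ δ : ℝ, 0 < δ ∧ Spread c δ K := by
  by_contra hno
  have h1 : ∀ n : ℕ, ∃ w : Es d, ∀ p ∈ closedBall w (c / 2), ∃ y ∈ K, y ∉ interior K ∧
      dist p y ≤ 1 / ((n : ℝ) + 1) := by
    intro n
    by_contra hc'
    apply hno
    refine ⟨1 / ((n : ℝ) + 1), by positivity, ?_⟩
    intro w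
    by_contra h2
    apply hc'
    refine ⟨w, ?_⟩
    intro p hp
    by_contra h3
    apply h2
    refine ⟨p, hp, ?_⟩
    intro y hy hyi
    by_contra h4
    apply h3
    exact ⟨y, hy, hyi, not_lt.1 h4⟩
  choose w hw using h1
  -- the centres are in a compact set
  have hmem : ∀ n, w n ∈ cthickening 1 K := by
    intro n
    obtain ⟨y, hy, _, hd⟩ := hw n (w n) (mem_closedBall_self (by positivity))
    apply Metric.mem_cthickening_of_dist_le _ y _ _ hy
    refine hd.trans ?_
    rw [div_le_one (by positivity)]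
    have : (0 : ℝ) ≤ n := Nat.cast_nonneg n
    linarith
  obtain ⟨v, _, φ, hφ, hlim⟩ := hK.cthickening.tendsto_subseq hmem
  have hbd : ∀ p ∈ ball v (c / 2), p ∈ K ∧ p ∉ interior K := by
    intro p hp
    have hcl : IsClosed {y | y ∈ K ∧ y ∉ interior K} := by
      have : {y | y ∈ K ∧ y ∉ interior K} = K ∩ (interior K)ᶜ := rfl
      rw [this]
      exact hK.isClosed.inter isOpen_interior.isClosed_compl
    have h2 : p ∈ closure {y | y ∈ K ∧ y ∉ interior K} := by
      rw [Metric.mem_closure_iff]
      intro ε hε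
      have e1 : ∀ᶠ n in atTop, dist (w (φ n)) v < c / 2 - dist p v := by
        have := (tendsto_iff_dist_tendsto_zero.1 hlim)
        exact this.eventually (gt_mem_nhds (by have := mem_ball.1 hp; linarith))
      have e2 : ∀ᶠ n in atTop, 1 / ((φ n : ℝ) + 1) < ε := by
        have := (tendsto_one_div_add_atTop_nhds_zero_nat (𝕜 := ℝ)).comp hφ.tendsto_atTop
        exact this.eventually (gt_mem_nhds hε)
      obtain ⟨n, hn1, hn2⟩ := (e1.and e2).exists
      obtain ⟨y, hy, hyi, hd⟩ := hw (φ n) p (by
        rw [mem_closedBall]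
        have := dist_triangle p v (w (φ n))
        rw [dist_comm v] at this
        linarith)
      exact ⟨y, ⟨hy, hyi⟩, lt_of_le_of_lt hd hn2⟩
    rw [hcl.closure_eq] at h2
    exact h2
  have hv : v ∈ interior K := by
    rw [mem_interior_iff_mem_nhds]
    exact Filter.mem_of_superset (ball_mem_nhds v (by positivity)) (fun p hp => (hbd p hp).1)
  exact (hbd v (mem_ball_self (by positivity))).2 hv

theorem Spread.mono {c δ δ' : ℝ} {K : Set (Es d)} (h : Spread c δ K) (hle : δ' ≤ δ) :
    Spread c δ' K := by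
  intro w
  obtain ⟨p, hp, h1⟩ := h w
  exact ⟨p, hp, fun y hy hyi => lt_of_le_of_lt hle (h1 y hy hyi)⟩

theorem Spread.congr {c δ : ℝ} {K B : Set (Es d)} (h : Spread c δ K) (hKB : Congr K B) :
    Spread c δ B := by
  obtain ⟨g, rfl⟩ := hKB
  intro w
  obtain ⟨p, hp, h1⟩ := h (g.symm w)
  refine ⟨g p, ?_, ?_⟩
  · rw [mem_closedBall] at hp ⊢
    have : dist (g p) w = dist p (g.symm w) := by
      rw [← g.isometry.dist_eq p (g.symm w)]
      simp
    rw [this]; exact hp
  · rintro _ ⟨y, hy, rfl⟩ hyi
    rw [g.isometry.dist_eq]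
    apply h1 y hy
    intro hyK
    apply hyi
    have h2 : g '' interior K = interior (g '' K) := g.toHomeomorph.image_interior K
    rw [← h2]
    exact ⟨y, hyK, rfl⟩

/-- two sets with disjoint interiors are not near to each other -/
theorem Spread.not_near {c δ₀ δ : ℝ} {K B : Set (Es d)} (h : Spread c δ₀ K) {z : Es d}
    (hz : closedBall z c ⊆ B) (hdisj : Disjoint (interior K) (interior B)) (hδ : δ ≤ δ₀)
    (hδc : δ < c / 2) : ¬ Cl δ K B := by
  intro hcl
  obtain ⟨p, hp, h1⟩ := h z
  rw [mem_closedBall] at hp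
  have hδ0 : 0 ≤ δ ∨ δ < 0 := le_or_gt 0 δ
  have hpB : p ∈ B := by
    apply hz
    rw [mem_closedBall]
    have : 0 ≤ dist p z := dist_nonneg
    linarith
  obtain ⟨x, hx, hd⟩ := hcl.2 p hpB
  have hxB : x ∈ interior B := by
    rw [mem_interior_iff_mem_nhds]
    have h2 : x ∈ ball z c := by
      rw [mem_ball]
      have := dist_triangle x p z
      linarith
    exact Filter.mem_of_superset (isOpen_ball.mem_nhds h2) (ball_subset_closedBall.trans hz)
  have hxK : x ∉ interior K := fun h3 => Set.disjoint_left.1 hdisj h3 hxB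
  have h4 := h1 x hx hxK
  rw [dist_comm] at h4
  linarith

end Pool.Agent.Y366.SO
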